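import Pool.Agent.H71.FD.Form
import Pool.Agent.H88.HF.Low36

/-!
The non-Wieferich primes outside a null set have lower density at least `9/25`.
-/

namespace Pool.Agent.H87.FE

open Filter
open Pool.Agent.H71.FD
open Pool.Agent.H11.NW (Wf)

/-- the non-Wieferich primes outside a null set have lower density at least `9/25` -/
theorem lower_nw36 (S : Set ℕ) (B : ℕ → Prop) (hB : Null B)
    (hS : ∀ p, p.Prime → 5 ≤ p → ¬ p ^ 2 ∣ 2 ^ (p - 1) - 1 → ¬ B p → p ∈ S) :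
    ∀ ε : ℝ, 0 < ε → ∃ x₀ : ℕ, ∀ x : ℕ, x₀ ≤ x →
      (9 / 25 - ε) * (x / Real.log x) ≤ ({p : ℕ | p.Prime ∧ p ≤ x ∧ p ∈ S}.ncard : ℝ) :=
  lower_of_cn' S (fun p => 5 ≤ p ∧ ¬ Wf p) B (9 / 25)
    (Pool.Agent.H88.HF.low_cn Pool.Agent.H80.HF.main_ineq) hB
    (fun p hp hg hb => hS p hp hg.1 hg.2 hb)

/-- the upper form: the complement has upper density at most `16/25` -/
theorem lower_nw36' (S : Set ℕ) (B : ℕ → Prop) (hB : Null B)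
    (hS : ∀ p, p.Prime → 5 ≤ p → ¬ p ^ 2 ∣ 2 ^ (p - 1) - 1 → ¬ B p → p ∈ S) :
    ∃ x₀ : ℕ, ∀ x : ℕ, x₀ ≤ x →
      7 / 20 * (x / Real.log x) ≤ ({p : ℕ | p.Prime ∧ p ≤ x ∧ p ∈ S}.ncard : ℝ) := by
  obtain ⟨x₀, h⟩ := lower_nw36 S B hB hS (1 / 100) (by norm_num)
  refine ⟨x₀, fun x hx => ?_⟩
  have h1 := h x hx
  norm_num at h1 ⊢
  exact h1

end Pool.Agent.H87.FE
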